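import Pool.Agent.H.MP_47869a_co.B

namespace Pool.Agent.H.MP_52d9f3_co
open Finset Pool.Agent.H.MP_47869a_co
open scoped Classical

lemma ident {n : ℕ} {γ : Type} (ρ : Equiv.Perm (Fin n)) (c : Fin n → γ) (h1 : ∀ i, c (ρ i) = c i)
    (h2 : ∀ i j, c i = c j → i < j → ρ i < ρ j) (i : Fin n) : ρ i = i := by
  induction i using WellFoundedLT.induction with
  | ind i ih =>
    rcases lt_trichotomy (ρ i) i with h | h | h
    · exact ρ.injective (ih _ h)
    · exact h
    · exfalso
      have e : ρ (ρ.symm i) = i := by simp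
      rcases lt_trichotomy (ρ.symm i) i with g | g | g
      · rw [ih _ g] at e; exact g.ne e
      · rw [g] at e; exact h.ne' e
      · have := h2 i (ρ.symm i) (by rw [← h1 (ρ.symm i), e]) g
        rw [e] at this
        exact lt_asymm h this

lemma colour {n M : ℕ} (p : Equiv.Perm (Fin n))
    (hp : ¬ Contains 1 (1 : Equiv.Perm (Fin (M + 1))) p) :
    ∃ c : Fin n → Fin (M + 1) × Fin 2, ∀ i j, c i = c j → i < j → p j < p i := by
  have hM : ∀ i, ¬ C 1 p M i := fun i hc => by
    obtain ⟨g, -, hg⟩ := of_chain hc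
    have hm : StrictMono (fun a : Fin (M + 1) => p (g a)) := by
      rw [Fin.strictMono_iff_lt_succ]
      intro a
      exact (hg a a.2).2
    refine hp ⟨fun a => g a, fun a b hab => ?_, fun a b => hm.lt_iff_lt⟩
    have := b.2
    simp only
    rw [← hab]
    exact (hg a (by omega)).1
  refine ⟨fun i => (⟨Nat.findGreatest (fun k => C 1 p k i) M,
    Nat.lt_succ_of_le (Nat.findGreatest_le _)⟩, ⟨i % 2, by omega⟩), fun i j h hij => ?_⟩
  simp only [Prod.mk.injEq, Fin.mk.injEq] at h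
  obtain ⟨h1, h2⟩ := h
  by_contra hh
  have h3 : p i < p j := lt_of_le_of_ne (not_lt.1 hh) (fun e => hij.ne (p.injective e))
  have h4 : C 1 p (Nat.findGreatest (fun k => C 1 p k i) M) i :=
    Nat.findGreatest_spec (P := fun k => C 1 p k i) (Nat.zero_le M) trivial
  have h5 : Nat.findGreatest (fun k => C 1 p k i) M ≠ M := fun e => hM i (e ▸ h4)
  have h6 := Nat.findGreatest_le (P := fun k => C 1 p k i) M
  have h7 := Nat.le_findGreatest (P := fun k => C 1 p k j)
    (m := Nat.findGreatest (fun k => C 1 p k i) M + 1) (n := M) (by omega)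
    ⟨i, by rw [Fin.lt_def] at hij; omega, h3, h4⟩
  omega

lemma upper (n M : ℕ) :
    #(univ.filter fun p : Equiv.Perm (Fin n) => ¬ Contains 1 (1 : Equiv.Perm (Fin (M + 1))) p) ≤
      (((M + 1) * 2) ^ 2) ^ n := by
  choose! c hc using fun p : Equiv.Perm (Fin n) => colour (M := M) p
  refine (card_le_card_of_injOn (t := univ) (fun p => (c p, c p ∘ p.symm)) (by simp) ?_).trans ?_
  · intro p hp p' hp' h
    simp only [coe_filter, mem_univ, true_and, Set.mem_ofPred_eq] at hp hp'
    simp only [Prod.mk.injEq] at h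
    obtain ⟨h1, h2⟩ := h
    have k1 : ∀ i, c p ((p.trans p'.symm) i) = c p i := fun i => by
      have := congrFun h2 (p i)
      simp only [Function.comp, Equiv.symm_apply_apply] at this
      rw [this, h1]; rfl
    have := ident (p.trans p'.symm) (c p) k1 (fun i j e hij => by
      have a1 := hc p hp i j e hij
      by_contra hh
      rcases (not_lt.1 hh).eq_or_lt with g | g
      · exact hij.ne' ((p.trans p'.symm).injective g)
      · have := hc p' hp' _ _ (by rw [← h1, k1, k1, e]) g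
        simp only [Equiv.trans_apply, Equiv.apply_symm_apply] at this
        exact lt_asymm a1 this)
    ext i
    have := this i
    rw [Equiv.trans_apply, Equiv.symm_apply_eq] at this
    rw [this]
  · simp [← pow_mul, two_mul, pow_add]

def dy (e : ℕ) (j : Fin (e + 1)) (x : Fin (2 ^ e)) : Fin (e + 1) × Fin (2 ^ e) :=
  (j, ⟨x / 2 ^ (j : ℕ), lt_of_le_of_lt (Nat.div_le_self _ _) x.2⟩)

lemma dyad (e l : ℕ) (x : Fin l → Fin l → Fin (2 ^ e))
    (hx : ∀ a a' b b', a < a' → x a b < x a' b') :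
    ∃ α : Fin l → Fin (e + 1) × Fin (2 ^ e), Function.Injective α ∧
      ∀ a b, ∃ j, α a = dy e j (x a b) := by
  have ex : ∀ a, ∃ j, ∀ b b', (x a b : ℕ) / 2 ^ j = x a b' / 2 ^ j := fun a =>
    ⟨e, fun b b' => by rw [Nat.div_eq_of_lt (x a b).2, Nat.div_eq_of_lt (x a b').2]⟩
  have hle : ∀ a, Nat.find (ex a) < e + 1 := fun a => Nat.lt_succ_of_le (Nat.find_min' _
    (fun b b' => by rw [Nat.div_eq_of_lt (x a b).2, Nat.div_eq_of_lt (x a b').2]))
  refine ⟨fun a => dy e ⟨_, hle a⟩ (x a a), ?_, fun a b => ⟨⟨_, hle a⟩, ?_⟩⟩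
  · have key : ∀ a a', a < a' → dy e ⟨_, hle a⟩ (x a a) ≠ dy e ⟨_, hle a'⟩ (x a' a') := by
      intro a a' haa h
      simp only [dy, Prod.mk.injEq, Fin.mk.injEq] at h
      obtain ⟨h1, h2⟩ := h
      have s1 := Nat.find_spec (ex a)
      have s2 := Nat.find_spec (ex a')
      have m1 := fun j => Nat.find_min (ex a) (m := j)
      have m2 := fun j => Nat.find_min (ex a') (m := j)
      rw [← h1] at h2 s2 m2
      generalize Nat.find (ex a) = J at *
      cases J with
      | zero =>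
        have := hx a a' a a' haa
        rw [Fin.lt_def] at this
        simp at h2; omega
      | succ J =>
        have n1 := m1 J (Nat.lt_succ_self J)
        have n2 := m2 J (Nat.lt_succ_self J)
        push Not at n1 n2
        obtain ⟨b1, b2, n1⟩ := n1
        obtain ⟨c1, c2, n2⟩ := n2
        simp only [pow_succ, ← Nat.div_div_eq_div_mul] at s1 s2 h2
        have d : ∀ b c, (x a b : ℕ) / 2 ^ J ≤ x a' c / 2 ^ J := fun b c =>
          Nat.div_le_div_right (hx a a' b c haa).le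
        have := s1 b1 a
        have := s1 b2 a
        have := s2 c1 a'
        have := s2 c2 a'
        have := d b1 c1
        have := d b1 c2
        have := d b2 c1
        have := d b2 c2
        omega
    intro a a' h
    rcases lt_trichotomy a a' with g | g | g
    exacts [absurd h (key a a' g), g, absurd h.symm (key a' a g)]
  · simp only [dy, Prod.mk.injEq, Fin.mk.injEq, true_and]
    exact Nat.find_spec (ex a) a b

lemma cntS {ι : Type} [Fintype ι] (s : ℕ) (S : Finset ι) (A : Finset (ι → Fin (s + 1)))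
    (hA : ∀ ω, ω ∈ A ↔ ∀ x ∈ S, ω x ≠ 0) :
    (#A : ℝ) = ((s : ℝ) / (s + 1)) ^ #S * ((s : ℝ) + 1) ^ Fintype.card ι := by
  have : A = Fintype.piFinset (fun x => if x ∈ S then univ.erase 0 else univ) := by
    ext ω
    simp only [hA, Fintype.mem_piFinset]
    refine forall_congr' fun x => ?_
    split_ifs with h <;> simp [h]
  rw [this, Fintype.card_piFinset]
  push_cast
  rw [Finset.prod_congr rfl (g := fun x => (if x ∈ S then (s : ℝ) / (s + 1) else 1) * (s + 1)),
    prod_mul_distrib, prod_ite_mem, univ_inter, prod_const, prod_const, card_univ]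
  intro x _
  split_ifs
  · simp; field_simp
  · simp

lemma exists_M (e l s : ℕ) (hs : 0 < s)
    (h : ((((e + 1) * 2 ^ e : ℕ) : ℝ) ^ l) ^ 2 * ((s : ℝ) / (s + 1)) ^ (l * l) ≤
      ((s : ℝ) / (s + 1)) ^ ((e + 1) * (e + 1)) / 4) :
    ∃ M : Finset (Fin (2 ^ e) × Fin (2 ^ e)),
      ((2 ^ e * 2 ^ e : ℕ) : ℝ) * ((s : ℝ) / (s + 1)) ^ ((e + 1) * (e + 1)) / 2 ≤ #M ∧
      ∀ x y : Fin l → Fin l → Fin (2 ^ e), (∀ a a' b b', a < a' → x a b < x a' b') →
        (∀ a a' b b', b < b' → y a b < y a' b') → ¬ ∀ a b, (x a b, y a b) ∈ M := by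
  set D := Fin (e + 1) × Fin (2 ^ e) with hD
  set θ : ℝ := (s : ℝ) / (s + 1) with hθ
  have θ0 : 0 < θ := by positivity
  have θ1 : θ ≤ 1 := by rw [hθ, div_le_one (by positivity)]; linarith
  set W : ℝ := ((s : ℝ) + 1) ^ Fintype.card (D × D) with hW
  have W0 : 0 < W := by positivity
  let M : (D × D → Fin (s + 1)) → Finset (Fin (2 ^ e) × Fin (2 ^ e)) := fun ω =>
    univ.filter fun z => ∀ x ∈ (univ : Finset (Fin (e + 1) × Fin (e + 1))).image
      (fun j => (dy e j.1 z.1, dy e j.2 z.2)), ω x ≠ 0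
  let Bad : Finset (D × D → Fin (s + 1)) :=
    (univ.filter fun f : (Fin l → D) × (Fin l → D) =>
      Function.Injective f.1 ∧ Function.Injective f.2).biUnion fun f =>
        univ.filter fun ω => ∀ x ∈ (univ : Finset (Fin l × Fin l)).image
          (fun j => (f.1 j.1, f.2 j.2)), ω x ≠ 0
  have h1 : ((2 ^ e * 2 ^ e : ℕ) : ℝ) * (θ ^ ((e + 1) * (e + 1)) * W) ≤ ∑ ω, (#(M ω) : ℝ) := by
    have : ∑ ω, (#(M ω) : ℝ) = ∑ z : Fin (2 ^ e) × Fin (2 ^ e), (#(univ.filter
        fun ω : D × D → Fin (s + 1) => ∀ x ∈ (univ : Finset (Fin (e + 1) × Fin (e + 1))).image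
          (fun j => (dy e j.1 z.1, dy e j.2 z.2)), ω x ≠ 0) : ℝ) := by
      simp only [M, card_filter]
      push_cast
      exact sum_comm
    rw [this]
    refine le_trans (le_of_eq ?_) (card_nsmul_le_sum univ _ (θ ^ ((e + 1) * (e + 1)) * W) ?_)
    · simp
    · intro z _
      rw [cntS s _ _ (fun ω => mem_filter.trans (and_iff_right (mem_univ _)))]
      refine mul_le_mul_of_nonneg_right (pow_le_pow_of_le_one θ0.le θ1 ?_) W0.le
      exact card_image_le.trans (by simp)
  have h2 : (#Bad : ℝ) ≤ θ ^ ((e + 1) * (e + 1)) / 4 * W := by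
    refine le_trans ?_ (mul_le_mul_of_nonneg_right h W0.le)
    refine le_trans (Nat.cast_le.2 card_biUnion_le) ?_
    push_cast
    refine (sum_le_card_nsmul _ _ (θ ^ (l * l) * W) ?_).trans ?_
    · intro f hf
      obtain ⟨f1, f2⟩ := (mem_filter.1 hf).2
      rw [cntS s _ _ (fun ω => mem_filter.trans (and_iff_right (mem_univ _))), card_image_of_injective _ (fun j j' g => by
        simp only [Prod.mk.injEq] at g
        exact Prod.ext (f1 g.1) (f2 g.2))]
      simp [hW, hθ]
    · rw [nsmul_eq_mul, mul_assoc]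
      refine mul_le_mul_of_nonneg_right ?_ (by positivity)
      refine le_trans (Nat.cast_le.2 (card_filter_le _ _)) ?_
      simp [hD, sq]
  by_contra hcon
  push Not at hcon
  have h3 : ∀ ω, (#(M ω) : ℝ) ≤ (if ω ∈ Bad then ((2 ^ e * 2 ^ e : ℕ) : ℝ) else 0) +
      ((2 ^ e * 2 ^ e : ℕ) : ℝ) * θ ^ ((e + 1) * (e + 1)) / 2 := by
    intro ω
    split_ifs with hb
    · have : (#(M ω) : ℝ) ≤ ((2 ^ e * 2 ^ e : ℕ) : ℝ) :=
        Nat.cast_le.2 ((card_le_univ _).trans (by simp))
      have : 0 ≤ ((2 ^ e * 2 ^ e : ℕ) : ℝ) * θ ^ ((e + 1) * (e + 1)) / 2 := by positivity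
      linarith
    · rw [zero_add]
      by_contra hh
      obtain ⟨x, y, hx, hy, hM⟩ := hcon (M ω) (not_le.1 hh).le
      obtain ⟨α, a1, a2⟩ := dyad e l x hx
      obtain ⟨β, b1, b2⟩ := dyad e l (fun b a => y a b) (fun b b' a a' g => hy a a' b b' g)
      refine hb (mem_biUnion.2 ⟨(α, β), mem_filter.2 ⟨mem_univ _, a1, b1⟩, ?_⟩)
      refine mem_filter.2 ⟨mem_univ _, fun z hz => ?_⟩
      obtain ⟨⟨a, b⟩, -, rfl⟩ := mem_image.1 hz
      obtain ⟨j, hj⟩ := a2 a b
      obtain ⟨j', hj'⟩ := b2 b a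
      refine (mem_filter.1 (hM a b)).2 _ (mem_image.2 ⟨(j, j'), mem_univ _, ?_⟩)
      simp only [hj, hj']
  have h4 := h1.trans (sum_le_sum fun ω _ => h3 ω)
  rw [sum_add_distrib, sum_ite_mem, univ_inter, sum_const, sum_const, nsmul_eq_mul, nsmul_eq_mul,
    card_univ, Fintype.card_fun, Fintype.card_fin] at h4
  push_cast at h4
  rw [← hW] at h4
  have p1 : (0 : ℝ) < 2 ^ e * 2 ^ e := by positivity
  have p2 : 0 < θ ^ ((e + 1) * (e + 1)) := by positivity
  have h5 := mul_le_mul_of_nonneg_right h2 p1.le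
  have p3 := mul_pos p1 (mul_pos p2 W0)
  nlinarith

end Pool.Agent.H.MP_52d9f3_co
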