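import Pool.Agent.H.MP_52d9f3_co.A

namespace Pool.Agent.H.MP_52d9f3_co
open Finset Pool.Agent.H.MP_47869a_co
open scoped Classical

noncomputable def Mt {N : ℕ} (M : Finset (Fin N × Fin N)) (k : ℕ) :
    Finset (Finset (Fin N × Fin N)) :=
  (powersetCard k M).filter fun S => Set.InjOn Prod.fst (S : Set (Fin N × Fin N)) ∧
    Set.InjOn Prod.snd (S : Set (Fin N × Fin N))

lemma mem_Mt {N : ℕ} {M S : Finset (Fin N × Fin N)} {k : ℕ} : S ∈ Mt M k ↔
    (S ⊆ M ∧ #S = k) ∧ Set.InjOn Prod.fst (S : Set (Fin N × Fin N)) ∧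
      Set.InjOn Prod.snd (S : Set (Fin N × Fin N)) := by
  simp [Mt]

lemma Mt_step {N : ℕ} (M : Finset (Fin N × Fin N)) (k g : ℕ) (h : g + 2 * N * k ≤ #M) :
    #(Mt M k) * g ≤ #(Mt M (k + 1)) * (k + 1) := by
  refine card_mul_le_card_mul (fun S S' => S ⊆ S') ?_ ?_
  · intro S hS
    obtain ⟨⟨h1, h2⟩, h3, h4⟩ := mem_Mt.1 hS
    let X := M.filter fun p => p.1 ∉ S.image Prod.fst ∧ p.2 ∉ S.image Prod.snd
    have hX : g ≤ #X := by
      have a : M ⊆ X ∪ (S.image Prod.fst ×ˢ univ ∪ univ ×ˢ S.image Prod.snd) := by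
        intro p hp
        simp only [X, mem_union, mem_filter, mem_product, mem_univ, and_true, true_and]
        tauto
      have a1 := (card_le_card a).trans ((card_union_le _ _).trans
        (Nat.add_le_add_left (card_union_le _ _) _))
      rw [card_product, card_product, card_univ, Fintype.card_fin, card_image_of_injOn h3,
        card_image_of_injOn h4, h2] at a1
      nlinarith
    have hn : ∀ x ∈ X, x ∉ S := fun x hx hS => (mem_filter.1 hx).2.1 (mem_image_of_mem _ hS)
    refine hX.trans (card_le_card_of_injOn (fun x => insert x S) ?_ ?_)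
    · intro x hx
      have hx' := mem_filter.1 (mem_coe.1 hx)
      rw [mem_coe, mem_bipartiteAbove, mem_Mt]
      refine ⟨⟨⟨insert_subset hx'.1 h1, by rw [card_insert_of_notMem (hn x hx), h2]⟩, ?_, ?_⟩,
        subset_insert _ _⟩
      · rw [coe_insert, Set.injOn_insert (by exact_mod_cast hn x hx)]
        exact ⟨h3, by exact_mod_cast hx'.2.1⟩
      · rw [coe_insert, Set.injOn_insert (by exact_mod_cast hn x hx)]
        exact ⟨h4, by exact_mod_cast hx'.2.2⟩
    · intro x hx y _ e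
      have : x ∈ insert y S := by
        simp only at e
        rw [← e]; exact mem_insert_self _ _
      exact (mem_insert.1 this).resolve_right (hn x hx)
  · intro S' hS'
    have : bipartiteBelow (fun S S' => S ⊆ S') (Mt M k) S' ⊆ powersetCard k S' := by
      intro S hS
      rw [mem_bipartiteBelow, mem_Mt] at hS
      exact mem_powersetCard.2 ⟨hS.2, hS.1.1.2⟩
    refine (card_le_card this).trans ?_
    rw [card_powersetCard, (mem_Mt.1 hS').1.2, Nat.choose_succ_self_right]

lemma Mt_low {N : ℕ} (M : Finset (Fin N × Fin N)) (g : ℕ) :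
    ∀ k, g + 2 * N * k ≤ #M → g ^ k ≤ #(Mt M k) * k.factorial := by
  intro k
  induction k with
  | zero =>
    intro _
    simp only [pow_zero, Nat.factorial_zero, mul_one]
    exact card_pos.2 ⟨∅, by simp [mem_Mt]⟩
  | succ k ih =>
    intro h
    have h' : g + 2 * N * k ≤ #M := le_trans (by nlinarith) h
    calc g ^ (k + 1) = g ^ k * g := pow_succ _ _
      _ ≤ #(Mt M k) * k.factorial * g := Nat.mul_le_mul_right _ (ih h')
      _ = #(Mt M k) * g * k.factorial := by ring
      _ ≤ #(Mt M (k + 1)) * (k + 1) * k.factorial := Nat.mul_le_mul_right _ (Mt_step M k g h')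
      _ = _ := by rw [Nat.factorial_succ]; ring

def grid (l : ℕ) : Equiv.Perm (Fin (l * l)) :=
  finProdFinEquiv.symm.trans ((Equiv.prodComm _ _).trans finProdFinEquiv)

lemma grid_apply (l : ℕ) (a b : Fin l) :
    grid l (finProdFinEquiv (a, b)) = finProdFinEquiv (b, a) := by simp [grid]

lemma fp_lt {m k : ℕ} {a a' : Fin m} (b b' : Fin k) (h : a < a') :
    finProdFinEquiv (a, b) < finProdFinEquiv (a', b') := by
  rw [Fin.lt_def, finProdFinEquiv_apply_val, finProdFinEquiv_apply_val]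
  have := b.2
  have h' : (a : ℕ) + 1 ≤ a' := h
  have := Nat.mul_le_mul_left k h'
  simp only
  nlinarith

lemma fp_lt' {m k : ℕ} (a : Fin m) (b b' : Fin k) :
    finProdFinEquiv (a, b) < finProdFinEquiv (a, b') ↔ b < b' := by
  rw [Fin.lt_def, finProdFinEquiv_apply_val, finProdFinEquiv_apply_val, Fin.lt_def]
  simp

noncomputable def Av {m : ℕ} (q : Equiv.Perm (Fin m)) (t : ℕ) : Finset (Equiv.Perm (Fin t)) :=
  univ.filter fun σ => ¬ ∃ f : Fin m → Fin t, StrictMono f ∧ ∀ a b, σ (f a) < σ (f b) ↔ q a < q b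

lemma Mt_up {N l : ℕ} (M : Finset (Fin N × Fin N))
    (hM : ∀ x y : Fin l → Fin l → Fin N, (∀ a a' b b', a < a' → x a b < x a' b') →
      (∀ a a' b b', b < b' → y a b < y a' b') → ¬ ∀ a b, (x a b, y a b) ∈ M) (t : ℕ) :
    #(Mt M t) ≤ #(Av (grid l) t) * (N.choose t * N.choose t) := by
  refine (card_le_mul_card_image (f := fun S : Finset (Fin N × Fin N) =>
    (S.image Prod.fst, S.image Prod.snd)) _ (#(Av (grid l) t)) ?_).trans
    (Nat.mul_le_mul_left _ ?_)
  · rintro ⟨A, B⟩ hAB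
    obtain ⟨S0, hS0, e0⟩ := mem_image.1 hAB
    obtain ⟨⟨-, c0⟩, i1, i2⟩ := mem_Mt.1 hS0
    simp only [Prod.mk.injEq] at e0
    have hA : #A = t := by rw [← e0.1, card_image_of_injOn i1, c0]
    have hB : #B = t := by rw [← e0.2, card_image_of_injOn i2, c0]
    let a := A.orderEmbOfFin hA
    let b := B.orderEmbOfFin hB
    have ra : ∀ x ∈ A, ∃ i, a i = x := fun x hx => by
      have : x ∈ Set.range a := by rw [range_orderEmbOfFin]; exact hx
      exact this
    have rb : ∀ x ∈ B, ∃ i, b i = x := fun x hx => by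
      have : x ∈ Set.range b := by rw [range_orderEmbOfFin]; exact hx
      exact this
    refine le_trans (card_le_card ?_) (card_image_le (f := fun σ : Equiv.Perm (Fin t) =>
      univ.image fun i => (a i, b (σ i))))
    intro S hS
    obtain ⟨hS, e⟩ := mem_filter.1 hS
    obtain ⟨⟨sM, -⟩, j1, j2⟩ := mem_Mt.1 hS
    simp only [Prod.mk.injEq] at e
    have ex : ∀ i, ∃ j, (a i, b j) ∈ S := fun i => by
      have : a i ∈ S.image Prod.fst := by rw [e.1]; exact orderEmbOfFin_mem _ _ _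
      obtain ⟨p, hp, e1⟩ := mem_image.1 this
      obtain ⟨j, hj⟩ := rb p.2 (by rw [← e.2]; exact mem_image_of_mem _ hp)
      exact ⟨j, by rw [hj, ← e1]; exact hp⟩
    choose g hg using ex
    have gi : Function.Injective g := fun i i' h => by
      have := j2 (hg i) (hg i') (by simp [h])
      exact a.injective (congrArg Prod.fst this)
    refine mem_image.2 ⟨Equiv.ofBijective g (Finite.injective_iff_bijective.1 gi), ?_, ?_⟩
    · simp only [Av, mem_filter, mem_univ, true_and]
      rintro ⟨f, f1, f2⟩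
      refine hM (fun u v => a (f (finProdFinEquiv (u, v)))) (fun u v =>
        b (g (f (finProdFinEquiv (u, v))))) (fun u u' v v' h => a.strictMono (f1 (fp_lt _ _ h)))
        (fun u u' v v' h => b.strictMono ((f2 _ _).2 ?_)) (fun u v => sM (hg _))
      rw [grid_apply, grid_apply]
      exact fp_lt _ _ h
    · ext p
      simp only [mem_image, mem_univ, true_and, Equiv.ofBijective_apply]
      constructor
      · rintro ⟨i, rfl⟩; exact hg i
      · intro hp
        obtain ⟨i, hi⟩ := ra p.1 (by rw [← e.1]; exact mem_image_of_mem _ hp)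
        exact ⟨i, j1 (hg i) hp hi⟩
  · refine (card_le_card (t := powersetCard t univ ×ˢ powersetCard t univ) ?_).trans ?_
    · intro x hx
      obtain ⟨S, hS, rfl⟩ := mem_image.1 hx
      obtain ⟨⟨-, c0⟩, i1, i2⟩ := mem_Mt.1 hS
      simp [mem_powersetCard, card_image_of_injOn i1, card_image_of_injOn i2, c0]
    · simp

def skew {j t : ℕ} (g : Fin j → Equiv.Perm (Fin t)) : Equiv.Perm (Fin (j * t)) :=
  finProdFinEquiv.symm.trans ((Equiv.prodShear Fin.revPerm g).trans finProdFinEquiv)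

lemma skew_apply {j t : ℕ} (g : Fin j → Equiv.Perm (Fin t)) (u : Fin j) (v : Fin t) :
    skew g (finProdFinEquiv (u, v)) = finProdFinEquiv (u.rev, g u v) := by simp [skew]

lemma skew_count {m : ℕ} (q : Equiv.Perm (Fin (m + 1))) (hq : ∀ k, ¬ q k < q 0) (j t : ℕ) :
    #(Av q t) ^ j ≤ #(univ.filter fun p : Equiv.Perm (Fin (j * t)) => ¬ Contains 1 q p) := by
  have : #(Av q t) ^ j = #(Fintype.piFinset fun _ : Fin j => Av q t) := by simp
  rw [this]
  refine card_le_card_of_injOn skew ?_ ?_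
  · intro g hg
    simp only [mem_coe, Fintype.mem_piFinset] at hg
    simp only [coe_filter, mem_univ, true_and, Set.mem_ofPred_eq]
    rintro ⟨f, f1, f2⟩
    have fm : StrictMono f := by
      rw [Fin.strictMono_iff_lt_succ]
      intro a
      have := f1 a.castSucc a.succ (by simp)
      rw [Fin.lt_def]; omega
    have ex : ∀ k, ∃ u v, f k = finProdFinEquiv (u, v) := fun k =>
      ⟨(finProdFinEquiv.symm (f k)).1, (finProdFinEquiv.symm (f k)).2,
        (finProdFinEquiv.apply_symm_apply (f k)).symm⟩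
    choose U V hUV using ex
    have hU : ∀ k, U k = U 0 := fun k => by
      rcases lt_trichotomy (U k) (U 0) with h | h | h
      · have := fp_lt (V k) (V 0) h
        rw [← hUV, ← hUV, fm.lt_iff_lt] at this
        exact absurd this (Fin.not_lt_zero k)
      · exact h
      · refine absurd ((f2 k 0).1 ?_) (hq k)
        rw [hUV, hUV, skew_apply, skew_apply]
        exact fp_lt _ _ (Fin.rev_lt_rev.2 h)
    have := (mem_filter.1 (hg (U 0))).2
    refine this ⟨V, fun a b h => ?_, fun a b => ?_⟩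
    · have := fm h
      rwa [hUV, hUV, hU a, hU b, fp_lt'] at this
    · rw [← f2, hUV, hUV, skew_apply, skew_apply, hU a, hU b, fp_lt']
  · intro g _ g' _ h
    funext u
    ext v
    have := skew_apply g u v
    rw [h, skew_apply] at this
    have := congrArg Prod.snd (finProdFinEquiv.injective this)
    simp only at this
    rw [this]

lemma numer (l t : ℕ) (hl : l = 2 ^ 20) (ht : t = 2 ^ 108) :
    ((l * l * 2) ^ 2) ^ t < #(Av (grid l) t) := by
  have lo : (1 / 2 : ℝ) ≤ ((2047 : ℕ) / ((2047 : ℕ) + 1) : ℝ) ^ 1024 := by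
    have := one_add_mul_le_pow (show (-2 : ℝ) ≤ -1 / 2048 by norm_num) 1024
    rw [show (1 + -1 / 2048 : ℝ) = ((2047 : ℕ) / ((2047 : ℕ) + 1) : ℝ) by norm_num] at this
    refine le_trans (by norm_num) this
  have up : ((2047 : ℕ) / ((2047 : ℕ) + 1) : ℝ) ^ 2048 ≤ 1 / 2 := by
    have := Real.one_sub_div_pow_le_exp_neg (n := 2048) (t := 1) (by norm_num)
    rw [show (1 - 1 / (2048 : ℕ) : ℝ) = ((2047 : ℕ) / ((2047 : ℕ) + 1) : ℝ) by norm_num] at this
    refine this.trans ?_
    rw [Real.exp_neg, one_div]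
    exact inv_anti₀ (by norm_num) (by linarith [Real.add_one_le_exp (1 : ℝ)])
  have θ0 : (0 : ℝ) ≤ ((2047 : ℕ) / ((2047 : ℕ) + 1) : ℝ) := by positivity
  have hM := exists_M 127 l 2047 (by norm_num)
  generalize ((2047 : ℕ) / ((2047 : ℕ) + 1) : ℝ) = θ at *
  have lo' : (1 / 2 : ℝ) ^ 16 ≤ θ ^ ((127 + 1) * (127 + 1)) := by
    rw [show (127 + 1) * (127 + 1) = 1024 * 16 by norm_num, pow_mul]
    exact pow_le_pow_left₀ (by norm_num) lo 16
  obtain ⟨M, hM1, hM2⟩ := hM (by
    have a1 : θ ^ l ≤ ((1 / 2) ^ 256) ^ 2 := by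
      rw [hl, show 2 ^ 20 = 2048 * (256 * 2) by norm_num, pow_mul, pow_mul]
      exact pow_le_pow_left₀ (pow_nonneg (pow_nonneg θ0 _) _)
        (pow_le_pow_left₀ (pow_nonneg θ0 _) up 256) 2
    have a2 : (((127 + 1) * 2 ^ 127 : ℕ) : ℝ) ^ 2 * θ ^ l ≤ (1 / 2) ^ 18 :=
      (mul_le_mul_of_nonneg_left a1 (by positivity)).trans (by norm_num)
    rw [← pow_mul, mul_comm l 2, pow_mul, pow_mul, ← mul_pow]
    refine le_trans (pow_le_of_le_one (by positivity) (a2.trans (by norm_num)) (by omega)) ?_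
    exact a2.trans (le_trans (by norm_num) (div_le_div_of_nonneg_right lo' (by norm_num))))
  have hE : 2 ^ 236 + 2 * 2 ^ 127 * t ≤ #M := by
    have : (((2 ^ 236 + 2 * 2 ^ 127 * t : ℕ)) : ℝ) ≤ #M := by
      refine le_trans ?_ hM1
      refine le_trans ?_ (div_le_div_of_nonneg_right (mul_le_mul_of_nonneg_left lo'
        (by positivity)) (by norm_num))
      rw [ht]; norm_num
    exact_mod_cast this
  have h1 := (Mt_low M _ t hE).trans (Nat.mul_le_mul_right _ (Mt_up M hM2 t))
  generalize #(Av (grid l) t) = A at *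
  have h2 : (((2 : ℝ) ^ 236) ^ t) ≤ A * (((2 ^ 127).choose t : ℝ) * (2 ^ 127).choose t) *
      t.factorial := by exact_mod_cast h1
  have h3 : (((2 ^ 127).choose t : ℕ) : ℝ) ≤ ((2 : ℝ) ^ 127) ^ t / t.factorial := by
    have := Nat.choose_le_pow_div (α := ℝ) t (2 ^ 127)
    exact_mod_cast this
  have f0 : (0 : ℝ) < t.factorial := by positivity
  have h4 : ((t : ℝ) / 3) ^ t ≤ t.factorial := by
    have a := Real.pow_div_factorial_le_exp t (by positivity) t
    have b : Real.exp t ≤ 3 ^ t := by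
      rw [← Real.exp_one_pow]
      exact pow_le_pow_left₀ (Real.exp_pos 1).le Real.exp_one_lt_three.le t
    rw [div_pow, div_le_iff₀ (by positivity)]
    rw [div_le_iff₀ f0] at a
    nlinarith
  have h5 : ((2 : ℝ) ^ 236) ^ t * t.factorial ≤ A * ((2 ^ 127) ^ t * (2 ^ 127) ^ t) := by
    calc ((2 : ℝ) ^ 236) ^ t * t.factorial ≤ A * ((((2 : ℝ) ^ 127) ^ t / t.factorial) *
          (((2 : ℝ) ^ 127) ^ t / t.factorial)) * t.factorial * t.factorial := by
          refine mul_le_mul_of_nonneg_right (h2.trans ?_) f0.le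
          gcongr
      _ = _ := by field_simp
  have h6 : (((l * l * 2 : ℕ) : ℝ) ^ 2) ^ t * ((2 ^ 127) ^ t * (2 ^ 127) ^ t) <
      ((2 : ℝ) ^ 236) ^ t * ((t : ℝ) / 3) ^ t := by
    rw [← mul_pow, ← mul_pow, ← mul_pow]
    rw [← mul_pow]
    refine pow_lt_pow_left₀ ?_ (by positivity) (by rw [ht]; norm_num)
    rw [hl, ht]; norm_num
  have h7 := h6.trans_le ((mul_le_mul_of_nonneg_left h4 (by positivity)).trans h5)
  exact_mod_cast lt_of_mul_lt_mul_right h7 (by positivity)

lemma main : ∃ (m : ℕ) (q : Equiv.Perm (Fin m)), 3 ≤ m ∧ ∀ n0, ∃ n, n0 < n ∧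
    #(univ.filter fun p : Equiv.Perm (Fin n) => ¬ Contains 1 (1 : Equiv.Perm (Fin m)) p) <
    #(univ.filter fun p : Equiv.Perm (Fin n) => ¬ Contains 1 q p) := by
  obtain ⟨l, hl⟩ : ∃ l : ℕ, l = 2 ^ 20 := ⟨_, rfl⟩
  obtain ⟨t, ht⟩ : ∃ t : ℕ, t = 2 ^ 108 := ⟨_, rfl⟩
  have h := numer l t hl ht
  have h3 : 3 ≤ l * l := by rw [hl]; norm_num
  have hq : ∀ k k0 : Fin (l * l), (k0 : ℕ) = 0 → ¬ grid l k < grid l k0 := by
    intro k k0 h0
    have : k0 = finProdFinEquiv ((⟨0, by omega⟩ : Fin l), (⟨0, by omega⟩ : Fin l)) := by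
      apply Fin.ext; simp [h0]
    rw [this, grid_apply, Fin.lt_def]
    simp
  generalize grid l = q at h hq
  generalize l * l = m at *
  obtain ⟨M, rfl⟩ : ∃ M, m = M + 1 := ⟨m - 1, by omega⟩
  refine ⟨M + 1, q, h3, fun n0 => ⟨(n0 + 1) * t, ?_, ?_⟩⟩
  · have : 1 ≤ t := by omega
    nlinarith
  · refine (upper _ M).trans_lt (lt_of_lt_of_le ?_ (skew_count q (fun k => hq k 0 rfl) _ t))
    rw [mul_comm (n0 + 1) t, pow_mul]
    exact Nat.pow_lt_pow_left h (by omega)

end Pool.Agent.H.MP_52d9f3_co
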